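import Pool.Agent.Helper72.AD.T10

/-!
MP_efd95c_co, row FLD of the table ad_mods.
-/

set_option autoImplicit false

noncomputable section

namespace Pool.Agent.Helper72.AD

open _root_.AD

/-- row FLD -/
theorem _root_.AD.st_FLD (h10 : ST_T10) : ST_FLD := by
  intro r a s t A B x₁ x₂ y₁ y₂ hr hA hB p1 p2 p3 q1 q2 q3
  refine ⟨?_, ?_, ?_⟩
  · rcases le_total 0 x₁ with hx | hx
    · exact ⟨x₁, x₂, y₁, y₂, rfl, rfl, p1, dk_sq p2 (by nlinarith [mul_nonneg hx hB]) le_rfl, q3⟩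
    · refine ⟨-y₁, y₂, -x₁, x₂, by ring, by ring, dk_sq q1 (le_of_eq (by ring)) le_rfl,
        dk_sq q2 (le_of_eq (by ring)) le_rfl, dk_sq p3 ?_ le_rfl⟩
      nlinarith [mul_nonneg (neg_nonneg.mpr hx) hA]
  · rcases le_total 0 y₁ with hy | hy
    · exact ⟨x₁, x₂, y₁, y₂, rfl, rfl, p1, p3, dk_sq q2 (by nlinarith [mul_nonneg hy hB]) le_rfl⟩
    · refine ⟨-y₁, y₂, -x₁, x₂, by ring, by ring, dk_sq q1 (le_of_eq (by ring)) le_rfl,
        dk_sq q3 ?_ le_rfl, dk_sq p2 (le_of_eq (by ring)) le_rfl⟩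
      nlinarith [mul_nonneg (neg_nonneg.mpr hy) hA]
  · rcases le_total 0 x₁ with hx | hx
    · exact ⟨x₁, x₂, y₁, y₂, rfl, rfl, dk_sq p2 (by nlinarith [mul_nonneg hx hB]) le_rfl, p3, q1⟩
    rcases le_total y₁ 0 with hy | hy
    · refine ⟨-y₁, y₂, -x₁, x₂, by ring, by ring, dk_sq q2 (le_of_eq (by ring)) le_rfl,
        dk_sq q3 ?_ le_rfl, dk_sq p1 (le_of_eq (by ring)) le_rfl⟩
      nlinarith [mul_nonneg (neg_nonneg.mpr hy) hA]
    · obtain ⟨δ, c, h1, h2, h3⟩ := h10 r ((x₂ - y₂) / 2) (a - (x₂ + y₂) / 2) (s - (x₂ + y₂) / 2)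
        (t - (x₂ + y₂) / 2) (-x₁) y₁ A B hr (by linarith) hy hA hB
        (dk_sq p1 (le_of_eq (by ring)) (le_of_eq (by ring)))
        (dk_sq q1 (le_of_eq (by ring)) (le_of_eq (by ring)))
        (dk_sq p3 (le_of_eq (by ring)) (le_of_eq (by ring)))
        (dk_sq q3 (le_of_eq (by ring)) (le_of_eq (by ring)))
        (dk_sq p2 (le_of_eq (by ring)) (le_of_eq (by ring)))
        (dk_sq q2 (le_of_eq (by ring)) (le_of_eq (by ring)))
      exact ⟨c, (x₂ + y₂) / 2 + δ, c + -x₁ + y₁, (x₂ + y₂) / 2 - δ, by ring, by ring,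
        dk_sq h2 le_rfl (le_of_eq (by ring)), dk_sq h1 le_rfl (le_of_eq (by ring)),
        dk_sq h3 le_rfl (le_of_eq (by ring))⟩

end Pool.Agent.Helper72.AD

end
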