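import Pool.Agent.Helper72.AD.T10

/-!
MP_efd95c_co, row HEL of the table ad_mods.
-/

set_option autoImplicit false

noncomputable section

namespace Pool.Agent.Helper72.AD

open _root_.AD

lemma dk_conv {r u v u' v' a b : ℝ} (h : Dk r u v) (h' : Dk r u' v') (ha : 0 ≤ a) (hb : 0 ≤ b)
    (hab : a + b = 1) : Dk r (a * u + b * u') (a * v + b * v') := by
  unfold Dk at *
  have e : (a * u + b * u') ^ 2 + (a * v + b * v') ^ 2 =
      a * (u ^ 2 + v ^ 2) + b * (u' ^ 2 + v' ^ 2) - a * b * ((u - u') ^ 2 + (v - v') ^ 2) := by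
    have hb' : b = 1 - a := by linarith
    rw [hb']
    ring
  rw [e]
  have h1 := mul_le_mul_of_nonneg_left h ha
  have h2 := mul_le_mul_of_nonneg_left h' hb
  have h3 : 0 ≤ a * b * ((u - u') ^ 2 + (v - v') ^ 2) :=
    mul_nonneg (mul_nonneg ha hb) (add_nonneg (sq_nonneg _) (sq_nonneg _))
  have h4 : a * r ^ 2 + b * r ^ 2 = r ^ 2 := by
    rw [← add_mul, hab, one_mul]
  linarith

/-- the sets for Helly's theorem -/
def FF {n : ℕ} (r z H : ℝ) (y σ : Fin n → ℝ) : Fin n ⊕ Fin n → Set (ℝ × ℝ)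
  | Sum.inl i => {c | Dk r (c.1 - σ i) (c.2 - y i)}
  | Sum.inr j => {c | Dk r (c.1 - z - σ j) (H - c.2 - y j)}

lemma FF_convex {n : ℕ} (r z H : ℝ) (y σ : Fin n → ℝ) (i : Fin n ⊕ Fin n) :
    Convex ℝ (FF r z H y σ i) := by
  cases i with
  | inl i =>
    intro c hc d hd a b ha hb hab
    have h := dk_conv (show Dk r (c.1 - σ i) (c.2 - y i) from hc)
      (show Dk r (d.1 - σ i) (d.2 - y i) from hd) ha hb hab
    show Dk r (a * c.1 + b * d.1 - σ i) (a * c.2 + b * d.2 - y i)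
    have hb' : b = 1 - a := by linarith
    rw [hb'] at h ⊢
    convert h using 1 <;> ring
  | inr i =>
    intro c hc d hd a b ha hb hab
    have h := dk_conv (show Dk r (c.1 - z - σ i) (H - c.2 - y i) from hc)
      (show Dk r (d.1 - z - σ i) (H - d.2 - y i) from hd) ha hb hab
    show Dk r (a * c.1 + b * d.1 - z - σ i) (H - (a * c.2 + b * d.2) - y i)
    have hb' : b = 1 - a := by linarith
    rw [hb'] at h ⊢
    convert h using 1 <;> ring

/-- all the disks on the same side -/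
lemma line {n : ℕ} {r : ℝ} {x y σ : Fin n → ℝ} {x₁ x₂ : ℝ} (hn : 0 < n) (hr : 0 < r)
    (hc : ∀ i j, |σ i - σ j| ≤ |x i - x j|) (hx : ∀ i, Dk r (x₁ - x i) (x₂ - y i)) :
    ∃ c, ∀ i, Dk r (c - σ i) (x₂ - y i) := by
  have : Nonempty (Fin n) := ⟨⟨0, hn⟩⟩
  obtain ⟨i0, h0⟩ := Finite.exists_max (fun i => σ i - w r (x₂ - y i))
  refine ⟨σ i0 - w r (x₂ - y i0), fun i => ?_⟩
  obtain ⟨a1, b1⟩ := dk_abs hr (hx i)
  obtain ⟨a2, b2⟩ := dk_abs hr (hx i0)
  apply dk_of hr a1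
  have h1 := h0 i
  have h2 := hc i0 i
  have h3 : |x i0 - x i| ≤ w r (x₂ - y i0) + w r (x₂ - y i) := by
    have e : x i0 - x i = (x₁ - x i) - (x₁ - x i0) := by ring
    rw [e]
    calc _ ≤ |x₁ - x i| + |x₁ - x i0| := abs_sub _ _
      _ ≤ _ := by linarith
  have h4 := abs_le.mp (h2.trans h3)
  rw [abs_le]
  constructor
  · linarith
  · linarith [h4.2]

/-- row HEL -/
theorem _root_.AD.st_HEL (ht : ST_TRI) : ST_HEL := by
  intro n r x y σ x₁ x₂ y₁ y₂ hr hc hx hy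
  rcases Nat.eq_zero_or_pos n with hn | hn
  · subst hn
    exact ⟨x₁, x₂, y₁, y₂, rfl, rfl, fun i => i.elim0, fun i => i.elim0⟩
  have P3 : ∀ i k j, ∃ c : ℝ × ℝ, c ∈ FF r (x₁ - y₁) (x₂ + y₂) y σ (Sum.inl i) ∧
      c ∈ FF r (x₁ - y₁) (x₂ + y₂) y σ (Sum.inl k) ∧
      c ∈ FF r (x₁ - y₁) (x₂ + y₂) y σ (Sum.inr j) := by
    intro i k j
    obtain ⟨u₁, u₂, v₁, v₂, e1, e2, h1, h2, h3⟩ := ht r (fun m => x (![i, k, j] m))
      (fun m => y (![i, k, j] m)) (fun m => σ (![i, k, j] m)) x₁ x₂ y₁ y₂ hr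
      (fun _ _ => hc _ _) (fun _ => hx _) (fun _ => hy _)
    refine ⟨(u₁, u₂), h1, h2, ?_⟩
    show Dk r (u₁ - (x₁ - y₁) - σ j) (x₂ + y₂ - u₂ - y j)
    have h3' : Dk r (v₁ - σ j) (v₂ - y j) := h3
    have e3 : u₁ - (x₁ - y₁) = v₁ := by linarith
    have e4 : x₂ + y₂ - u₂ = v₂ := by linarith
    rw [e3, e4]
    exact h3'
  have P4 : ∀ i j k, ∃ c : ℝ × ℝ, c ∈ FF r (x₁ - y₁) (x₂ + y₂) y σ (Sum.inl i) ∧
      c ∈ FF r (x₁ - y₁) (x₂ + y₂) y σ (Sum.inr j) ∧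
      c ∈ FF r (x₁ - y₁) (x₂ + y₂) y σ (Sum.inr k) := by
    intro i j k
    obtain ⟨u₁, u₂, v₁, v₂, e1, e2, h1, h2, h3⟩ := ht r (fun m => x (![j, k, i] m))
      (fun m => y (![j, k, i] m)) (fun m => σ (![j, k, i] m)) y₁ y₂ x₁ x₂ hr
      (fun _ _ => hc _ _) (fun _ => hy _) (fun _ => hx _)
    have h1' : Dk r (u₁ - σ j) (u₂ - y j) := h1
    have h2' : Dk r (u₁ - σ k) (u₂ - y k) := h2
    have h3' : Dk r (v₁ - σ i) (v₂ - y i) := h3
    have e3 : v₁ - (x₁ - y₁) = u₁ := by linarith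
    have e4 : x₂ + y₂ - v₂ = u₂ := by linarith
    refine ⟨(v₁, v₂), h3', ?_, ?_⟩
    · show Dk r (v₁ - (x₁ - y₁) - σ j) (x₂ + y₂ - v₂ - y j)
      rw [e3, e4]
      exact h1'
    · show Dk r (v₁ - (x₁ - y₁) - σ k) (x₂ + y₂ - v₂ - y k)
      rw [e3, e4]
      exact h2'
  have P1 : ∃ c : ℝ × ℝ, ∀ i, c ∈ FF r (x₁ - y₁) (x₂ + y₂) y σ (Sum.inl i) := by
    obtain ⟨c, h⟩ := line hn hr hc hx
    exact ⟨(c, x₂), h⟩
  have P2 : ∃ c : ℝ × ℝ, ∀ i, c ∈ FF r (x₁ - y₁) (x₂ + y₂) y σ (Sum.inr i) := by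
    obtain ⟨c, h⟩ := line hn hr hc hy
    refine ⟨(c + (x₁ - y₁), x₂), fun i => ?_⟩
    show Dk r (c + (x₁ - y₁) - (x₁ - y₁) - σ i) (x₂ + y₂ - x₂ - y i)
    rw [add_sub_cancel_right, add_sub_cancel_left]
    exact h i
  have P : ∀ a b c : Fin n ⊕ Fin n, ∃ z : ℝ × ℝ, z ∈ FF r (x₁ - y₁) (x₂ + y₂) y σ a ∧
      z ∈ FF r (x₁ - y₁) (x₂ + y₂) y σ b ∧ z ∈ FF r (x₁ - y₁) (x₂ + y₂) y σ c := by
    intro a b c
    obtain ⟨z1, hz1⟩ := P1
    obtain ⟨z2, hz2⟩ := P2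
    cases a with
    | inl i =>
      cases b with
      | inl j =>
        cases c with
        | inl k => exact ⟨z1, hz1 i, hz1 j, hz1 k⟩
        | inr k => exact P3 i j k
      | inr j =>
        cases c with
        | inl k =>
          obtain ⟨z, h1, h2, h3⟩ := P3 i k j
          exact ⟨z, h1, h3, h2⟩
        | inr k => exact P4 i j k
    | inr i =>
      cases b with
      | inl j =>
        cases c with
        | inl k =>
          obtain ⟨z, h1, h2, h3⟩ := P3 j k i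
          exact ⟨z, h3, h1, h2⟩
        | inr k =>
          obtain ⟨z, h1, h2, h3⟩ := P4 j i k
          exact ⟨z, h2, h1, h3⟩
      | inr j =>
        cases c with
        | inl k =>
          obtain ⟨z, h1, h2, h3⟩ := P4 k i j
          exact ⟨z, h2, h3, h1⟩
        | inr k => exact ⟨z2, hz2 i, hz2 j, hz2 k⟩
  have key : (⋂ i ∈ (Finset.univ : Finset (Fin n ⊕ Fin n)),
      FF r (x₁ - y₁) (x₂ + y₂) y σ i).Nonempty := by
    apply Convex.helly_theorem' (𝕜 := ℝ)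
    · intro i _
      exact FF_convex _ _ _ _ _ _
    · intro I _ hI
      have hfr : Module.finrank ℝ (ℝ × ℝ) = 2 := by simp
      rw [hfr] at hI
      have hcov : ∃ a b c : Fin n ⊕ Fin n, ∀ i ∈ I, i = a ∨ i = b ∨ i = c := by
        have d0 : Fin n ⊕ Fin n := Sum.inl ⟨0, hn⟩
        interval_cases hcard : I.card
        · rw [Finset.card_eq_zero] at hcard
          exact ⟨d0, d0, d0, by simp [hcard]⟩
        · obtain ⟨a, ha⟩ := Finset.card_eq_one.mp hcard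
          exact ⟨a, a, a, by simp [ha]⟩
        · obtain ⟨a, b, _, hab⟩ := Finset.card_eq_two.mp hcard
          exact ⟨a, b, b, by simp [hab]⟩
        · obtain ⟨a, b, c, _, _, _, habc⟩ := Finset.card_eq_three.mp hcard
          exact ⟨a, b, c, by simp [habc]⟩
      obtain ⟨a, b, c, habc⟩ := hcov
      obtain ⟨z, h1, h2, h3⟩ := P a b c
      refine ⟨z, ?_⟩
      simp only [Set.mem_iInter]
      intro i hi
      rcases habc i hi with h | h | h
      · rw [h]; exact h1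
      · rw [h]; exact h2
      · rw [h]; exact h3
  obtain ⟨c, hcc⟩ := key
  simp only [Set.mem_iInter] at hcc
  refine ⟨c.1, c.2, c.1 - (x₁ - y₁), x₂ + y₂ - c.2, by ring, by ring, fun i => ?_, fun i => ?_⟩
  · exact hcc (Sum.inl i) (Finset.mem_univ _)
  · exact hcc (Sum.inr i) (Finset.mem_univ _)

end Pool.Agent.Helper72.AD

end
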