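import Pool.Agent.Helper12.AD.Stmts

/-!
MP_efd95c_co, rows T10 and FLD of the table ad_mods.
-/

set_option autoImplicit false

noncomputable section

namespace Pool.Agent.Helper72.AD

open _root_.AD

lemma w_nn (r s : ℝ) : 0 ≤ w r s := Real.sqrt_nonneg _

lemma w_ng (r s : ℝ) : w r (-s) = w r s := by
  unfold w
  congr 1
  ring

lemma dk_abs {r u v : ℝ} (hr : 0 < r) (h : Dk r u v) : |v| ≤ r ∧ |u| ≤ w r v := by
  unfold Dk at h
  constructor
  · exact abs_le_of_sq_le_sq (by nlinarith [sq_nonneg u]) hr.le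
  · unfold w
    exact Real.abs_le_sqrt (by linarith)

lemma dk_of {r u v : ℝ} (_hr : 0 < r) (h1 : |v| ≤ r) (h2 : |u| ≤ w r v) : Dk r u v := by
  unfold Dk
  unfold w at h2
  have h3 : v ^ 2 ≤ r ^ 2 := by
    have := abs_le.mp h1
    exact sq_le_sq' this.1 this.2
  have h4 : 0 ≤ r ^ 2 - v ^ 2 := by linarith
  have h5 : u ^ 2 ≤ (Real.sqrt (r ^ 2 - v ^ 2)) ^ 2 := by
    have := abs_le.mp h2
    exact sq_le_sq' this.1 this.2
  rw [Real.sq_sqrt h4] at h5
  linarith

lemma dk_sq {r u v u' v' : ℝ} (h : Dk r u v) (h1 : u' ^ 2 ≤ u ^ 2) (h2 : v' ^ 2 ≤ v ^ 2) :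
    Dk r u' v' := by
  unfold Dk at *
  linarith

/-- lower bound by the end values -/
lemma conc_ends (hw : ST_WCV) {r d s t D K : ℝ} (hr : 0 < r) (hd : 0 ≤ d) (hs : d + |s| ≤ r)
    (ht : d + |t| ≤ r) (h1 : K ≤ w r (d - s) + w r (d - t)) (h2 : K ≤ w r (d + s) + w r (d + t))
    (hD1 : -d ≤ D) (hD2 : D ≤ d) : K ≤ w r (D - s) + w r (D - t) := by
  rcases hd.eq_or_lt with h0 | h0
  · have : D = d := by linarith
    rw [this]
    exact h1
  have hc := hw r hr
  have key : ∀ m : ℝ, d + |m| ≤ r →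
      (d - D) / (2 * d) * w r (d + m) + (d + D) / (2 * d) * w r (d - m) ≤ w r (D - m) := by
    intro m hm
    have hm1 := (abs_le.mp (le_refl |m|)).1
    have hm2 := (abs_le.mp (le_refl |m|)).2
    have h := hc.2 (show -d - m ∈ Set.Icc (-r) r from ⟨by linarith, by linarith [abs_nonneg m]⟩)
      (show d - m ∈ Set.Icc (-r) r from ⟨by linarith [abs_nonneg m], by linarith⟩)
      (show 0 ≤ (d - D) / (2 * d) from div_nonneg (by linarith) (by linarith))
      (show 0 ≤ (d + D) / (2 * d) from div_nonneg (by linarith) (by linarith))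
      (by field_simp; ring)
    simp only [smul_eq_mul] at h
    have e1 : (d - D) / (2 * d) * (-d - m) + (d + D) / (2 * d) * (d - m) = D - m := by
      field_simp
      ring
    have e2 : w r (-d - m) = w r (d + m) := by
      rw [← w_ng r (d + m)]
      congr 1
      ring
    rw [e1, e2] at h
    exact h
  have k1 := key s hs
  have k2 := key t ht
  have hl : 0 ≤ (d - D) / (2 * d) := div_nonneg (by linarith) (by linarith)
  have hl2 : 0 ≤ (d + D) / (2 * d) := div_nonneg (by linarith) (by linarith)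
  have hsum : (d - D) / (2 * d) + (d + D) / (2 * d) = 1 := by
    field_simp
    ring
  have m1 := mul_le_mul_of_nonneg_left h1 hl2
  have m2 := mul_le_mul_of_nonneg_left h2 hl
  have e3 : K = (d + D) / (2 * d) * K + (d - D) / (2 * d) * K := by
    rw [← add_mul, add_comm ((d + D) / (2 * d)), hsum, one_mul]
  rw [e3]
  linarith [m1, m2, k1, k2, mul_add ((d + D) / (2 * d)) (w r (d - s)) (w r (d - t)),
    mul_add ((d - D) / (2 * d)) (w r (d + s)) (w r (d + t))]

lemma t10_pos (hw : ST_WCV) (hb : ST_T1B) : ∀ r d a s t X Y A B : ℝ, 0 < r → 0 ≤ d →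
    0 ≤ X → 0 ≤ Y → 0 ≤ A → 0 ≤ B →
    Dk r X (d - a) → Dk r Y (d + a) → Dk r (X + A) (d - s) → Dk r (Y - A) (d + s) →
    Dk r (X - B) (d - t) → Dk r (Y + B) (d + t) →
    ∃ δ c, Dk r (c - A) (δ - s) ∧ Dk r (c - B) (δ - t) ∧ Dk r (c + X + Y) (δ + a) := by
  intro r d a s t X Y A B hr hd hX hY hA hB k1 k2 k3 k4 k5 k6
  obtain ⟨a1, b1⟩ := dk_abs hr k1
  obtain ⟨a2, b2⟩ := dk_abs hr k2
  obtain ⟨a3, b3⟩ := dk_abs hr k3
  obtain ⟨a4, b4⟩ := dk_abs hr k4
  obtain ⟨a5, b5⟩ := dk_abs hr k5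
  obtain ⟨a6, b6⟩ := dk_abs hr k6
  rw [abs_le] at a1 a2 a3 a4 a5 a6 b1 b2 b3 b4 b5 b6
  have ha : d + |a| ≤ r := by
    rcases abs_cases a with ⟨h, _⟩ | ⟨h, _⟩ <;> rw [h] <;> linarith
  have hs : d + |s| ≤ r := by
    rcases abs_cases s with ⟨h, _⟩ | ⟨h, _⟩ <;> rw [h] <;> linarith
  have ht : d + |t| ≤ r := by
    rcases abs_cases t with ⟨h, _⟩ | ⟨h, _⟩ <;> rw [h] <;> linarith
  obtain ⟨δ, h1, h2, h3, h4⟩ := hb r d (-a) s t X Y A B hr hd (by rwa [abs_neg]) hs ht
    (by rw [← sub_eq_add_neg]; exact b1.2) (by rw [sub_neg_eq_add]; exact b2.2)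
    b3.2 b4.2 b5.2 b6.2
  rw [sub_neg_eq_add] at h3 h4
  have hAB : |A - B| ≤ w r (δ - s) + w r (δ - t) := by
    apply conc_ends hw hr hd hs ht _ _ h1 h2
    · rw [abs_le]
      constructor <;> linarith [w_nn r (d - s), w_nn r (d - t), b3.1, b3.2, b5.1, b5.2]
    · rw [abs_le]
      constructor <;> linarith [w_nn r (d + s), w_nn r (d + t), b4.1, b4.2, b6.1, b6.2]
  rw [abs_le] at hAB
  have w1 := w_nn r (δ - s)
  have w2 := w_nn r (δ - t)
  have w3 := w_nn r (δ + a)
  refine ⟨δ, max (A - w r (δ - s)) (max (B - w r (δ - t)) (-(X + Y) - w r (δ + a))), ?_, ?_, ?_⟩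
  · apply dk_of hr
    · rw [abs_le]
      rcases abs_cases s with ⟨h, _⟩ | ⟨h, _⟩ <;> rw [h] at hs <;> constructor <;> linarith
    · rw [abs_le]
      constructor
      · linarith [le_max_left (A - w r (δ - s)) (max (B - w r (δ - t)) (-(X + Y) - w r (δ + a)))]
      · rw [sub_le_iff_le_add]
        exact max_le (by linarith) (max_le (by linarith) (by linarith))
  · apply dk_of hr
    · rw [abs_le]
      rcases abs_cases t with ⟨h, _⟩ | ⟨h, _⟩ <;> rw [h] at ht <;> constructor <;> linarith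
    · rw [abs_le]
      constructor
      · linarith [le_max_right (A - w r (δ - s)) (max (B - w r (δ - t)) (-(X + Y) - w r (δ + a))),
          le_max_left (B - w r (δ - t)) (-(X + Y) - w r (δ + a))]
      · rw [sub_le_iff_le_add]
        exact max_le (by linarith) (max_le (by linarith) (by linarith))
  · apply dk_of hr
    · rw [abs_le]
      rcases abs_cases a with ⟨h, _⟩ | ⟨h, _⟩ <;> rw [h] at ha <;> constructor <;> linarith
    · rw [abs_le]
      constructor
      · linarith [le_max_right (A - w r (δ - s)) (max (B - w r (δ - t)) (-(X + Y) - w r (δ + a))),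
          le_max_right (B - w r (δ - t)) (-(X + Y) - w r (δ + a))]
      · have : max (A - w r (δ - s)) (max (B - w r (δ - t)) (-(X + Y) - w r (δ + a))) ≤
            -(X + Y) + w r (δ + a) :=
          max_le (by linarith) (max_le (by linarith) (by linarith))
        linarith

/-- row T10 -/
theorem _root_.AD.st_T10 (hw : ST_WCV) (hb : ST_T1B) : ST_T10 := by
  intro r d a s t X Y A B hr hX hY hA hB k1 k2 k3 k4 k5 k6
  rcases le_total 0 d with hd | hd
  · exact t10_pos hw hb r d a s t X Y A B hr hd hX hY hA hB k1 k2 k3 k4 k5 k6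
  · obtain ⟨δ, c, h1, h2, h3⟩ := t10_pos hw hb r (-d) (-a) (-s) (-t) X Y A B hr (by linarith)
      hX hY hA hB (dk_sq k1 le_rfl (le_of_eq (by ring))) (dk_sq k2 le_rfl (le_of_eq (by ring)))
      (dk_sq k3 le_rfl (le_of_eq (by ring))) (dk_sq k4 le_rfl (le_of_eq (by ring)))
      (dk_sq k5 le_rfl (le_of_eq (by ring))) (dk_sq k6 le_rfl (le_of_eq (by ring)))
    exact ⟨-δ, c, dk_sq h1 le_rfl (le_of_eq (by ring)), dk_sq h2 le_rfl (le_of_eq (by ring)),
      dk_sq h3 le_rfl (le_of_eq (by ring))⟩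

end Pool.Agent.Helper72.AD

end
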